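import Pool.Agent.helper83.FI4B.SpecI2

/-!
# Project fi4, version FI4+ (MP_baa4d7_al), row BHN: the condition `Hy2` goes to subgroups
-/

set_option autoImplicit false

namespace Pool.Agent.FI4B

open Pool.Agent.helper58.DC Pool.Agent.DI Pool.Agent.GR Pool.Agent.OB Pool.Agent.DR Pool.Agent.FI Pool.Agent.FI3 Pool.Agent.FI4 Pool.Agent.FI4I

open Classical in
theorem BHN (hTRT : TRT_stmt) (hTR3 : TR3_stmt) : BHN_stmt := by
  intro p M hM G _ _ D N hDN hCN θ hθ h
  have e1 := hTRT G M D N hDN hCN θ hθ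
  obtain ⟨t1, t2, t3, t4, t5⟩ := hTR3 p G N
  have e2 : cz (D.subgroupOf N) = (cz D).subgroupOf N := (t1 D hDN).1
  have hle : cz D ≤ TT M D θ := cz_le_TT
  have e3 : iI M (D.subgroupOf N) (rN N θ) = (cz D).relIndex (TT M D θ ⊓ N) := by
    unfold iI
    rw [e1, e2]
    have e4 : (TT M D θ).subgroupOf N = (TT M D θ ⊓ N).subgroupOf N := by
      ext n
      simp [Subgroup.mem_subgroupOf]
    rw [e4]
    exact t5 _ _ (le_inf hle hCN) inf_le_right
  have e5 : (cz D).relIndex (TT M D θ ⊓ N) ≤ iI M D θ := by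
    have h1 := Subgroup.relIndex_mul_relIndex (cz D) (TT M D θ ⊓ N) (TT M D θ) (le_inf hle hCN) inf_le_left
    unfold iI
    rw [← h1]
    refine Nat.le_mul_of_pos_right _ (Nat.pos_of_ne_zero ?_)
    exact Subgroup.index_ne_zero_of_finite
  have hRG : ∀ u : N, (u : G) ∈ RG M D θ → u ∈ RG M (D.subgroupOf N) (rN N θ) := by
    intro u hu
    refine ⟨?_, ?_⟩
    · rw [Subgroup.mem_subgroupOf]
      exact hu.1
    · intro t ht htu
      rw [e1, Subgroup.mem_subgroupOf] at ht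
      rw [e2, Subgroup.mem_subgroupOf]
      exact hu.2 (t : G) ht (congrArg Subtype.val htu)
  obtain ⟨S, hS1, hS2, hS3⟩ := h
  refine ⟨S.image (fun H => H.subgroupOf N), ?_, ?_, ?_⟩
  · intro H' hH'
    obtain ⟨H, hH, rfl⟩ := Finset.mem_image.1 hH'
    obtain ⟨h1, h2⟩ := hS1 H hH
    refine ⟨fun u hu => ?_, ?_⟩
    · rw [Subgroup.mem_subgroupOf] at hu ⊢
      exact h1 hu
    · rw [Subgroup.relIndex_subgroupOf hDN, h2]
  · intro u hu hun
    rw [Subgroup.mem_subgroupOf] at hu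
    obtain ⟨H, hH, huH⟩ := hS2 u hu fun h1 => hun (hRG u h1)
    exact ⟨H.subgroupOf N, Finset.mem_image_of_mem _ hH, Subgroup.mem_subgroupOf.2 huH⟩
  · rw [e3]
    have h1 : (S.image (fun H => H.subgroupOf N)).card ≤ S.card := Finset.card_image_le
    omega

end Pool.Agent.FI4B
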